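import Pool.Agent.Helper54K9.GT.Def

/-!
Branching algorithms with few non-monotone steps (MP_0f1f76_lc): counting the programs.
-/

set_option autoImplicit false

namespace Pool.Agent.Helper54K9.GT

open Finset

variable {n R : ℕ}

/-- The unit vector. -/
def unit (k : Fin n) : Fin n → Bool := fun l => decide (l = k)

/-- Tokens. -/
abbrev Tok (n R T : ℕ) := (Fin R × Fin (T + 2)) ⊕ Ref (Fin n) R

/-- The list of the tokens of a program. -/
def enc (T : ℕ) : List (Instr (Fin n) R) → List (Tok n R T)
  | [] => []
  | I :: P => .inl (I.dst, Fin.ofNat (T + 2) I.thr) :: (I.src.map .inr ++ enc T P)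

theorem enc_length (T : ℕ) (P : List (Instr (Fin n) R)) : (enc T P).length = cost P := by
  induction P with
  | nil => rfl
  | cons I P ih =>
    rw [enc, List.length_cons, List.length_append, List.length_map, ih]
    unfold cost
    simp only [List.map_cons, List.sum_cons]
    omega

/-- The list does not start with an operand. -/
def NH {α β : Type} (u : List (α ⊕ β)) : Prop := ∀ (b : β) (t : List (α ⊕ β)), u ≠ .inr b :: t

theorem nh_enc (T : ℕ) (P : List (Instr (Fin n) R)) : NH (enc T P) := by
  intro b t
  cases P with
  | nil => simp [enc]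
  | cons I P => simp [enc]

theorem split_inr {α β : Type} (l : List β) : ∀ (l' : List β) (u u' : List (α ⊕ β)), NH u → NH u' →
    l.map .inr ++ u = l'.map .inr ++ u' → l = l' ∧ u = u' := by
  induction l with
  | nil =>
    intro l' u u' hu hu' h
    cases l' with
    | nil => exact ⟨rfl, h⟩
    | cons b l' => exact absurd h (hu b _)
  | cons a l ih =>
    intro l' u u' hu hu' h
    cases l' with
    | nil => exact absurd h.symm (hu' a _)
    | cons b l' =>
      rw [List.map_cons, List.map_cons, List.cons_append, List.cons_append, List.cons.injEq] at h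
      obtain ⟨h1, h2⟩ := h
      obtain ⟨h3, h4⟩ := ih l' u u' hu hu' h2
      rw [Sum.inr.injEq] at h1
      exact ⟨by rw [h1, h3], h4⟩

theorem enc_inj (T : ℕ) (P : List (Instr (Fin n) R)) : ∀ P' : List (Instr (Fin n) R),
    (∀ J ∈ P, J.thr < T + 2) → (∀ J ∈ P', J.thr < T + 2) → enc T P = enc T P' → P = P' := by
  induction P with
  | nil =>
    intro P' _ _ h
    cases P' with
    | nil => rfl
    | cons I P' => simp [enc] at h
  | cons I P ih =>
    intro P' h1 h2 h
    cases P' with
    | nil => simp [enc] at h
    | cons J P' =>
      rw [enc, enc, List.cons.injEq] at h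
      obtain ⟨h3, h4⟩ := h
      obtain ⟨h5, h6⟩ := split_inr _ _ _ _ (nh_enc T P) (nh_enc T P') h4
      rw [Sum.inl.injEq, Prod.mk.injEq] at h3
      have h7 := ih P' (fun K hK => h1 K (List.mem_cons_of_mem _ hK))
        (fun K hK => h2 K (List.mem_cons_of_mem _ hK)) h6
      have h8 : I.thr = J.thr := by
        have := congrArg Fin.val h3.2
        simp only [Fin.val_ofNat] at this
        rw [Nat.mod_eq_of_lt (h1 I (List.mem_cons_self)), Nat.mod_eq_of_lt
          (h2 J (List.mem_cons_self))] at this
        exact this
      rw [h7]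
      congr 1
      cases I
      cases J
      simp only at h3 h5 h8
      rw [h3.1, h5, h8]

theorem cost_mem {P : List (Instr (Fin n) R)} {J : Instr (Fin n) R} (hJ : J ∈ P) :
    J.src.length + 1 ≤ cost P := by
  induction P with
  | nil => simp at hJ
  | cons I P ih =>
    have e : cost (I :: P) = (I.src.length + 1) + cost P := by
      unfold cost
      simp
    rw [e]
    rw [List.mem_cons] at hJ
    rcases hJ with rfl | hJ
    · omega
    · have := ih hJ
      omega

/-- What a reduced program does for the columns in `K`. -/
def Does (code : List (Instr (Fin n) R)) (out : Fin n → Ref (Fin n) R) (K : Finset (Fin n))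
    (M : Matrix (Fin n) (Fin n) Bool) : Prop :=
  ∀ k ∈ K, ∀ j, val (unit k) (run (unit k) (fun _ => false) code) (out j) = M j k

/-- Counting the matrices. -/
theorem count (T m : ℕ) (E : Finset (Matrix (Fin n) (Fin n) Bool))
    (h : ∀ M ∈ E, ∃ (code : List (Instr (Fin n) R)) (out : Fin n → Ref (Fin n) R)
      (K : Finset (Fin n)), m ≤ K.card ∧ cost code ≤ T ∧
      (∀ J ∈ code, J.thr ≤ J.src.length + 1) ∧ Does code out K M) :
    E.card ≤ 2 ^ (n * (n - m)) * (2 ^ n * ((1 + (R * (T + 2) + (2 + (n + R)))) ^ T *
      (2 + (n + R)) ^ n)) := by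
  classical
  choose! code out K hK hcost hthr hdo using h
  set f : Matrix (Fin n) (Fin n) Bool → Finset (Fin n) × (Fin T → Option (Tok n R T)) ×
    (Fin n → Ref (Fin n) R) :=
    fun M => (K M, fun t => (enc T (code M))[(t : ℕ)]?, out M) with hf
  have hfib : ∀ a ∈ E.image f, (E.filter (fun M => f M = a)).card ≤ 2 ^ (n * (n - m)) := by
    intro a ha
    rw [mem_image] at ha
    obtain ⟨M0, hM0, rfl⟩ := ha
    -- restriction to the other columns
    set g : Matrix (Fin n) (Fin n) Bool → (Fin n × {k : Fin n // k ∉ K M0} → Bool) :=
      fun M p => M p.1 p.2.1 with hg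
    have hinj : Set.InjOn g (E.filter (fun M => f M = f M0)) := by
      have hval : ∀ M, M ∈ E.filter (fun M => f M = f M0) → ∀ k ∈ K M0, ∀ j,
          M j k = M0 j k := by
        intro M hM k hk j
        rw [mem_filter] at hM
        obtain ⟨hME, hfM⟩ := hM
        rw [hf] at hfM
        simp only [Prod.mk.injEq] at hfM
        obtain ⟨hk1, hc1, ho1⟩ := hfM
        have henc : enc T (code M) = enc T (code M0) := by
          apply List.ext_getElem?
          intro t
          by_cases ht : t < T
          · exact congrFun hc1 ⟨t, ht⟩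
          · rw [List.getElem?_eq_none (by rw [enc_length]; have := hcost M hME; omega),
              List.getElem?_eq_none (by rw [enc_length]; have := hcost M0 hM0; omega)]
        have hbound : ∀ M ∈ E, ∀ J ∈ code M, J.thr < T + 2 := by
          intro M hM J hJ
          have a1 := hthr M hM J hJ
          have a2 := cost_mem hJ
          have a3 := hcost M hM
          omega
        have hcode := enc_inj T (code M) (code M0) (hbound M hME) (hbound M0 hM0) henc
        have d1 := hdo M hME k (by rw [hk1]; exact hk) j
        have d2 := hdo M0 hM0 k hk j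
        rw [← d1, ← d2, hcode, ho1]
      intro M hM M' hM' hgg
      ext j k
      by_cases hk : k ∈ K M0
      · rw [hval M hM k hk j, hval M' hM' k hk j]
      · exact congrFun hgg (j, ⟨k, hk⟩)
    have hc := Finset.card_le_card_of_injOn (t := (univ : Finset (Fin n × {k : Fin n // k ∉ K M0} →
      Bool))) g (fun _ _ => mem_univ _) hinj
    refine hc.trans ?_
    rw [card_univ, Fintype.card_fun, Fintype.card_bool, Fintype.card_prod, Fintype.card_fin]
    apply Nat.pow_le_pow_right (by norm_num)
    apply Nat.mul_le_mul_left
    rw [Fintype.card_subtype_compl, Fintype.card_fin, Fintype.card_coe]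
    have := hK M0 hM0
    omega
  refine (card_le_mul_card_image (f := f) E _ hfib).trans ?_
  apply Nat.mul_le_mul_left
  refine (card_le_univ _).trans (le_of_eq ?_)
  rw [Fintype.card_prod, Fintype.card_prod, Fintype.card_finset, Fintype.card_fin,
    Fintype.card_fun, Fintype.card_fun, Fintype.card_option, Fintype.card_fin, Fintype.card_fin,
    Fintype.card_sum, Fintype.card_prod, Fintype.card_fin, Fintype.card_fin, Fintype.card_sum,
    Fintype.card_sum, Fintype.card_bool, Fintype.card_fin, Fintype.card_fin]
  rw [add_comm 1]

end Pool.Agent.Helper54K9.GT
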