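import Mathlib

/-!
Branching algorithms with few non-monotone steps (MP_0f1f76_lc): definitions and the reduction to one copy.
-/

set_option autoImplicit false

namespace Pool.Agent.Helper54K9.GT

open Finset

/-- Operands: the constants, the input bits (named by `ι`), the registers. -/
abbrev Ref (ι : Type) (R : ℕ) := Bool ⊕ ι ⊕ Fin R

/-- A threshold instruction: the register `dst` becomes 1 if at least `thr` of the operands are 1, and 0
otherwise (`thr = 1`: OR; `thr` = number of operands: AND). -/
structure Instr (ι : Type) (R : ℕ) where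
  dst : Fin R
  thr : ℕ
  src : List (Ref ι R)

/-- The value of an operand for the input `x` and the contents `ρ` of the registers. -/
def val {ι : Type} {R : ℕ} (x : ι → Bool) (ρ : Fin R → Bool) : Ref ι R → Bool
  | .inl b => b
  | .inr (.inl a) => x a
  | .inr (.inr r) => ρ r

/-- One threshold instruction. -/
def step {ι : Type} {R : ℕ} (x : ι → Bool) (ρ : Fin R → Bool) (I : Instr ι R) : Fin R → Bool :=
  Function.update ρ I.dst (decide (I.thr ≤ I.src.countP (val x ρ)))

/-- Algorithms for `n` vectors of length `n` with `R` one-bit registers. `done out`: stop, `out i j` is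
the place of the output `j` for the vector `i`. `thr I A`: a threshold instruction, then `A`.
`special m src w A`: read the values `v` of `m` operands; then every register may be overwritten
(`w v r = some c`: register `r` becomes `c`) and the algorithm goes on as `A v`. -/
inductive Alg (n R : ℕ) : Type where
  | done (out : Fin n → Fin n → Ref (Fin n × Fin n) R) : Alg n R
  | thr (I : Instr (Fin n × Fin n) R) (A : Alg n R) : Alg n R
  | special (m : ℕ) (src : Fin m → Ref (Fin n × Fin n) R)
      (w : (Fin m → Bool) → Fin R → Option Bool) (A : (Fin m → Bool) → Alg n R) : Alg n R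

/-- The values of the operands of a special step. -/
def rd {ι : Type} {R m : ℕ} (x : ι → Bool) (ρ : Fin R → Bool) (src : Fin m → Ref ι R) :
    Fin m → Bool := fun a => val x ρ (src a)

/-- Overwriting registers. -/
def put {R : ℕ} (w : Fin R → Option Bool) (ρ : Fin R → Bool) : Fin R → Bool :=
  fun r => (w r).getD (ρ r)

/-- The output `j` for the vector `i`, for the input `x` and the contents `ρ` of the registers. -/
def eval {n R : ℕ} (x : Fin n × Fin n → Bool) :
    (ρ : Fin R → Bool) → Alg n R → Fin n → Fin n → Bool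
  | ρ, .done out => fun i j => val x ρ (out i j)
  | ρ, .thr I A => eval x (step x ρ I) A
  | ρ, .special _ src w A => eval x (put (w (rd x ρ src)) ρ) (A (rd x ρ src))

/-- The running time: the number of the executed steps plus the number of their operands. -/
def time {n R : ℕ} (x : Fin n × Fin n → Bool) : (ρ : Fin R → Bool) → Alg n R → ℕ
  | _, .done _ => 0
  | ρ, .thr I A => (I.src.length + 1) + time x (step x ρ I) A
  | ρ, .special m src w A => (m + 1) + time x (put (w (rd x ρ src)) ρ) (A (rd x ρ src))

/-- The product of the numbers `m + 1` over the executed special steps, `m` being the number of the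
operands of the step. -/
def weight {n R : ℕ} (x : Fin n × Fin n → Bool) : (ρ : Fin R → Bool) → Alg n R → ℕ
  | _, .done _ => 1
  | ρ, .thr I A => weight x (step x ρ I) A
  | ρ, .special m src w A => (m + 1) * weight x (put (w (rd x ρ src)) ρ) (A (rd x ρ src))

/-- A sequence of threshold instructions. -/
def run {ι : Type} {R : ℕ} (x : ι → Bool) (ρ : Fin R → Bool) (P : List (Instr ι R)) :
    Fin R → Bool := P.foldl (step x) ρ

/-- Its cost: number of instructions plus number of operands. -/
def cost {ι : Type} {R : ℕ} (P : List (Instr ι R)) : ℕ := (P.map (fun I => I.src.length + 1)).sum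

theorem cost_cons {ι : Type} {R : ℕ} (I : Instr ι R) (P : List (Instr ι R)) :
    cost (I :: P) = (I.src.length + 1) + cost P := by
  unfold cost
  simp

section mono

variable {ι : Type} {R : ℕ}

theorem val_mono {x x' : ι → Bool} {ρ ρ' : Fin R → Bool} (hx : ∀ a, x a = true → x' a = true)
    (hρ : ∀ r, ρ r = true → ρ' r = true) (q : Ref ι R) (h : val x ρ q = true) :
    val x' ρ' q = true := by
  rcases q with b | a | r
  · exact h
  · exact hx a h
  · exact hρ r h

theorem step_dst (x : ι → Bool) (ρ : Fin R → Bool) (I : Instr ι R) :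
    step x ρ I I.dst = decide (I.thr ≤ I.src.countP (val x ρ)) := by
  unfold step
  rw [Function.update_self]

theorem step_ne (x : ι → Bool) (ρ : Fin R → Bool) (I : Instr ι R) {r : Fin R} (hr : r ≠ I.dst) :
    step x ρ I r = ρ r := by
  unfold step
  rw [Function.update_of_ne hr]

theorem step_mono {x x' : ι → Bool} {ρ ρ' : Fin R → Bool} (hx : ∀ a, x a = true → x' a = true)
    (hρ : ∀ r, ρ r = true → ρ' r = true) (I : Instr ι R) (r : Fin R)
    (h : step x ρ I r = true) : step x' ρ' I r = true := by
  by_cases hr : r = I.dst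
  · subst hr
    rw [step_dst, decide_eq_true_eq] at h ⊢
    exact h.trans (List.countP_mono_left (fun q _ hq => val_mono hx hρ q hq))
  · rw [step_ne _ _ _ hr] at h ⊢
    exact hρ r h

theorem put_mono {ρ ρ' : Fin R → Bool} (hρ : ∀ r, ρ r = true → ρ' r = true)
    (w : Fin R → Option Bool) (r : Fin R) (h : put w ρ r = true) : put w ρ' r = true := by
  unfold put at h ⊢
  cases hw : w r with
  | none => rw [hw] at h; exact hρ r h
  | some c => rw [hw] at h; exact h

end mono

variable {n R : ℕ}

/-- The input with ones in the copies below `m`, zeros in the others. -/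
def ZZ (m : ℕ) : Fin n × Fin n → Bool := fun p => decide (p.1.1 < m)

/-- The input with the vector `v` in copy `i`, ones in the copies before, zeros in the copies
after `i`. -/
def XV (i : Fin n) (v : Fin n → Bool) : Fin n × Fin n → Bool :=
  fun p => if p.1 = i then v p.2 else decide (p.1 < i)

theorem ZZ_mono {m m' : ℕ} (h : m ≤ m') (p : Fin n × Fin n) (hp : ZZ m p = true) :
    ZZ m' p = true := by
  unfold ZZ at hp ⊢
  rw [decide_eq_true_eq] at hp ⊢
  omega

theorem ZZ_le_XV (i : Fin n) (v : Fin n → Bool) (p : Fin n × Fin n) (h : ZZ i.1 p = true) :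
    XV i v p = true := by
  unfold ZZ at h
  unfold XV
  rw [decide_eq_true_eq] at h
  rw [if_neg (by intro hp; rw [hp] at h; omega), decide_eq_true_eq]
  exact h

theorem XV_le_ZZ (i : Fin n) (v : Fin n → Bool) (p : Fin n × Fin n) (h : XV i v p = true) :
    ZZ (i.1 + 1) p = true := by
  unfold ZZ
  unfold XV at h
  rw [decide_eq_true_eq]
  by_cases hp : p.1 = i
  · rw [hp]; omega
  · rw [if_neg hp, decide_eq_true_eq] at h
    have : p.1.1 < i.1 := h
    omega

/-- The reduced operand. -/
def redRef (i : ℕ) (lo hi : Fin R → Bool) : Ref (Fin n × Fin n) R → Ref (Fin n) R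
  | .inl b => .inl b
  | .inr (.inl p) => if p.1.1 = i then .inr (.inl p.2) else .inl (decide (p.1.1 < i))
  | .inr (.inr r) => if lo r = hi r then .inl (lo r) else .inr (.inr r)

/-- The reduced instruction. -/
def redI (i : ℕ) (lo hi : Fin R → Bool) (I : Instr (Fin n × Fin n) R) : Instr (Fin n) R :=
  ⟨I.dst, min I.thr (I.src.length + 1), I.src.map (redRef i lo hi)⟩

/-- The reduced program: the live instructions. -/
def redu (i : ℕ) : (lo hi : Fin R → Bool) → Alg n R → List (Instr (Fin n) R)
  | _, _, .done _ => []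
  | lo, hi, .thr I A =>
    if step (ZZ i) lo I I.dst ≠ step (ZZ (i + 1)) hi I I.dst then
      redI i lo hi I :: redu i (step (ZZ i) lo I) (step (ZZ (i + 1)) hi I) A
    else redu i (step (ZZ i) lo I) (step (ZZ (i + 1)) hi I) A
  | lo, hi, .special _ src w A =>
    redu i (put (w (rd (ZZ i) lo src)) lo) (put (w (rd (ZZ i) lo src)) hi) (A (rd (ZZ i) lo src))

theorem redu_thr (i : ℕ) (lo hi : Fin R → Bool) (I : Instr (Fin n × Fin n) R) (A : Alg n R) :
    redu i lo hi (.thr I A) = if step (ZZ i) lo I I.dst ≠ step (ZZ (i + 1)) hi I I.dst then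
      redI i lo hi I :: redu i (step (ZZ i) lo I) (step (ZZ (i + 1)) hi I) A
    else redu i (step (ZZ i) lo I) (step (ZZ (i + 1)) hi I) A := rfl

theorem redu_special (i : ℕ) (lo hi : Fin R → Bool) (m : ℕ) (src : Fin m → Ref (Fin n × Fin n) R)
    (w : (Fin m → Bool) → Fin R → Option Bool) (A : (Fin m → Bool) → Alg n R) :
    redu i lo hi (.special m src w A) = redu i (put (w (rd (ZZ i) lo src)) lo)
      (put (w (rd (ZZ i) lo src)) hi) (A (rd (ZZ i) lo src)) := rfl

/-- The reduced outputs. -/
def redOut (i : Fin n) : (lo hi : Fin R → Bool) → Alg n R → Fin n → Ref (Fin n) R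
  | lo, hi, .done out => fun j => redRef i.1 lo hi (out i j)
  | lo, hi, .thr I A => redOut i (step (ZZ i.1) lo I) (step (ZZ (i.1 + 1)) hi I) A
  | lo, hi, .special _ src w A =>
    redOut i (put (w (rd (ZZ i.1) lo src)) lo) (put (w (rd (ZZ i.1) lo src)) hi)
      (A (rd (ZZ i.1) lo src))

/-- No operand of a special step changes its value between the inputs `ZZ i` and `ZZ (i + 1)`. -/
def Good (i : ℕ) : (lo hi : Fin R → Bool) → Alg n R → Prop
  | _, _, .done _ => True
  | lo, hi, .thr I A => Good i (step (ZZ i) lo I) (step (ZZ (i + 1)) hi I) A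
  | lo, hi, .special _ src w A => rd (ZZ i) lo src = rd (ZZ (i + 1)) hi src ∧
      Good i (put (w (rd (ZZ i) lo src)) lo) (put (w (rd (ZZ i) lo src)) hi)
        (A (rd (ZZ i) lo src))

theorem good_special (i : ℕ) (lo hi : Fin R → Bool) (m : ℕ)
    (src : Fin m → Ref (Fin n × Fin n) R)
    (w : (Fin m → Bool) → Fin R → Option Bool) (A : (Fin m → Bool) → Alg n R) :
    Good i lo hi (.special m src w A) ↔ rd (ZZ i) lo src = rd (ZZ (i + 1)) hi src ∧
      Good i (put (w (rd (ZZ i) lo src)) lo) (put (w (rd (ZZ i) lo src)) hi)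
        (A (rd (ZZ i) lo src)) := Iff.rfl

/-- The invariant of the reduction. -/
structure Inv (lo hi ρ ρ' : Fin R → Bool) : Prop where
  lo_le : ∀ r, lo r = true → ρ r = true
  le_hi : ∀ r, ρ r = true → hi r = true
  eq : ∀ r, lo r ≠ hi r → ρ' r = ρ r

theorem Inv.ref {i : Fin n} {v : Fin n → Bool} {lo hi ρ ρ' : Fin R → Bool}
    (h : Inv lo hi ρ ρ') (q : Ref (Fin n × Fin n) R) :
    val v ρ' (redRef i.1 lo hi q) = val (XV i v) ρ q := by
  rcases q with b | p | r
  · rfl
  · show val v ρ' (if p.1.1 = i.1 then .inr (.inl p.2) else .inl (decide (p.1.1 < i.1))) = XV i v p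
    unfold XV
    by_cases hp : p.1 = i
    · rw [if_pos hp, if_pos (congrArg Fin.val hp)]; rfl
    · rw [if_neg hp, if_neg (fun h => hp (Fin.ext h))]; rfl
  · show val v ρ' (if lo r = hi r then .inl (lo r) else .inr (.inr r)) = ρ r
    by_cases hr : lo r = hi r
    · rw [if_pos hr]
      show lo r = ρ r
      have h1 := h.lo_le r
      have h2 := h.le_hi r
      cases hl : lo r
      · rw [hl] at hr
        rw [← hr] at h2
        cases hρ : ρ r
        · rfl
        · exact absurd (h2 hρ) (by simp)
      · exact (h1 hl).symm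
    · rw [if_neg hr]
      exact h.eq r hr

theorem min_thr (t len c : ℕ) (hc : c ≤ len) : min t (len + 1) ≤ c ↔ t ≤ c := by omega

theorem inv_step {i : Fin n} {v : Fin n → Bool} {lo hi ρ ρ' : Fin R → Bool}
    (h : Inv lo hi ρ ρ') (I : Instr (Fin n × Fin n) R) :
    Inv (step (ZZ i.1) lo I) (step (ZZ (i.1 + 1)) hi I) (step (XV i v) ρ I)
      (if step (ZZ i.1) lo I I.dst ≠ step (ZZ (i.1 + 1)) hi I I.dst then
        step v ρ' (redI i.1 lo hi I) else ρ') := by
  refine ⟨?_, ?_, ?_⟩
  · exact fun r hr => step_mono (ZZ_le_XV i v) h.lo_le I r hr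
  · exact fun r hr => step_mono (XV_le_ZZ i v) h.le_hi I r hr
  · intro r hr
    by_cases hd : r = I.dst
    · subst hd
      rw [if_pos hr]
      have e1 : step v ρ' (redI i.1 lo hi I) (redI i.1 lo hi I).dst =
          decide ((redI i.1 lo hi I).thr ≤ (redI i.1 lo hi I).src.countP (val v ρ')) :=
        step_dst _ _ _
      refine Eq.trans e1 ?_
      rw [step_dst]
      unfold redI
      apply decide_eq_decide.mpr
      simp only
      rw [List.countP_map]
      have e3 : (val v ρ' ∘ redRef i.1 lo hi) = val (XV i v) ρ := by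
        funext q
        exact h.ref q
      rw [e3]
      exact min_thr _ _ _ List.countP_le_length
    · rw [step_ne _ _ _ hd] at hr ⊢
      rw [step_ne _ _ _ hd] at hr
      split_ifs
      · rw [step_ne v ρ' (redI i.1 lo hi I) (r := r) hd]
        exact h.eq r hr
      · exact h.eq r hr

theorem inv_put {lo hi ρ ρ' : Fin R → Bool} (h : Inv lo hi ρ ρ') (w : Fin R → Option Bool) :
    Inv (put w lo) (put w hi) (put w ρ) ρ' := by
  refine ⟨fun r hr => put_mono h.lo_le w r hr, fun r hr => put_mono h.le_hi w r hr, ?_⟩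
  intro r hr
  unfold put at hr ⊢
  cases hw : w r with
  | none => rw [hw] at hr; exact h.eq r hr
  | some c => rw [hw] at hr; exact absurd rfl hr

theorem inv_rd {i : Fin n} {v : Fin n → Bool} {lo hi ρ ρ' : Fin R → Bool}
    (h : Inv lo hi ρ ρ') {m : ℕ} (src : Fin m → Ref (Fin n × Fin n) R)
    (he : rd (ZZ i.1) lo src = rd (ZZ (i.1 + 1)) hi src) :
    rd (XV i v) ρ src = rd (ZZ i.1) lo src := by
  funext a
  have h2 : val (ZZ i.1) lo (src a) = val (ZZ (i.1 + 1)) hi (src a) := congrFun he a
  have a1 := val_mono (ZZ_le_XV i v) h.lo_le (src a)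
  have a2 := val_mono (XV_le_ZZ i v) h.le_hi (src a)
  rw [← h2] at a2
  show val (XV i v) ρ (src a) = val (ZZ i.1) lo (src a)
  cases ha : val (ZZ i.1) lo (src a)
  · cases hb : val (XV i v) ρ (src a)
    · rfl
    · have := a2 hb
      rw [ha] at this
      exact absurd this (by simp)
  · exact a1 ha

theorem exact_run {i : Fin n} {v : Fin n → Bool} (A : Alg n R) :
    ∀ {lo hi ρ ρ' : Fin R → Bool}, Inv lo hi ρ ρ' → Good i.1 lo hi A →
      ∀ j, val v (run v ρ' (redu i.1 lo hi A)) (redOut i lo hi A j) =
        eval (XV i v) ρ A i j := by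
  induction A with
  | done out =>
    intro lo hi ρ ρ' h _ j
    exact h.ref (out i j)
  | thr I A ih =>
    intro lo hi ρ ρ' h hg j
    have h1 := ih (inv_step (v := v) h I) hg j
    have e : run v ρ' (redu i.1 lo hi (.thr I A)) =
        run v (if step (ZZ i.1) lo I I.dst ≠ step (ZZ (i.1 + 1)) hi I I.dst then
        step v ρ' (redI i.1 lo hi I) else ρ')
        (redu i.1 (step (ZZ i.1) lo I) (step (ZZ (i.1 + 1)) hi I) A) := by
      rw [redu_thr]
      split_ifs
      · rfl
      · rfl
    rw [e]
    exact h1
  | special m src w A ih =>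
    intro lo hi ρ ρ' h hg j
    rw [good_special] at hg
    have e := inv_rd (v := v) h src hg.1
    have h1 := ih (rd (ZZ i.1) lo src) (inv_put h (w (rd (ZZ i.1) lo src))) hg.2 j
    show val v (run v ρ' (redu i.1 (put (w (rd (ZZ i.1) lo src)) lo)
      (put (w (rd (ZZ i.1) lo src)) hi) (A (rd (ZZ i.1) lo src))))
      (redOut i (put (w (rd (ZZ i.1) lo src)) lo) (put (w (rd (ZZ i.1) lo src)) hi)
      (A (rd (ZZ i.1) lo src)) j) =
      eval (XV i v) (put (w (rd (XV i v) ρ src)) ρ) (A (rd (XV i v) ρ src)) i j
    rw [h1, e]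

theorem thr_redu (i : ℕ) (A : Alg n R) : ∀ (lo hi : Fin R → Bool),
    ∀ J ∈ redu i lo hi A, J.thr ≤ J.src.length + 1 := by
  induction A with
  | done out => intro lo hi J hJ; simp [redu] at hJ
  | thr I A ih =>
    intro lo hi J hJ
    rw [redu_thr] at hJ
    split_ifs at hJ
    · rw [List.mem_cons] at hJ
      rcases hJ with rfl | hJ
      · unfold redI
        simp only [List.length_map]
        exact min_le_right _ _
      · exact ih _ _ J hJ
    · exact ih _ _ J hJ
  | special m src w A ih =>
    intro lo hi J hJ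
    rw [redu_special] at hJ
    exact ih _ _ _ J hJ

end Pool.Agent.Helper54K9.GT
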