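import Pool.Agent.Helper54K9.GT.Def

/-!
Branching algorithms with few non-monotone steps (MP_0f1f76_lc): few copies are bad, and the reduced
programs of the good copies are short.
-/

set_option autoImplicit false

namespace Pool.Agent.Helper54K9.GT

open Finset

/-- The number of ones. -/
def ones {m : ℕ} (v : Fin m → Bool) : ℕ := (univ.filter (fun k => v k = true)).card

theorem ones_le {m : ℕ} (v : Fin m → Bool) : ones v ≤ m := by
  unfold ones
  refine (card_le_univ _).trans ?_
  rw [Fintype.card_fin]

theorem eq_of_ones {m : ℕ} {u v : Fin m → Bool} (h : ∀ k, u k = true → v k = true)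
    (hc : ones v ≤ ones u) : u = v := by
  unfold ones at hc
  have hs : univ.filter (fun k => u k = true) ⊆ univ.filter (fun k => v k = true) := by
    intro k hk
    rw [mem_filter] at hk ⊢
    exact ⟨hk.1, h k hk.2⟩
  have he := eq_of_subset_of_card_le hs hc
  funext k
  have h1 : (u k = true) ↔ (v k = true) := by
    have := congrArg (fun s => k ∈ s) he
    simp only [mem_filter, mem_univ, true_and, eq_iff_iff] at this
    exact this
  cases hu : u k
  · cases hv : v k
    · rfl
    · rw [hu, hv] at h1
      exact absurd (h1.mpr rfl) (by simp)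
  · exact (h1.mp hu).symm

theorem chain_le {m : ℕ} (f : ℕ → Fin m → Bool) {a b : ℕ}
    (hf : ∀ i, a ≤ i → i < b → ∀ k, f i k = true → f (i + 1) k = true) {i j : ℕ} (hai : a ≤ i)
    (hij : i ≤ j) (hjb : j ≤ b) (k : Fin m) (h : f i k = true) : f j k = true := by
  induction j, hij using Nat.le_induction with
  | base => exact h
  | succ j hj ih => exact hf j (by omega) (by omega) k (ih (by omega))

/-- Splitting an interval at the jumps of a monotone vector. -/
theorem seg {m : ℕ} (f : ℕ → Fin m → Bool) (w : ℕ → ℕ) (e C b : ℕ) (J : ℕ) :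
    ∀ a, a ≤ b →
    (∀ i, a ≤ i → i < b → ∀ k, f i k = true → f (i + 1) k = true) →
    (∀ i, a ≤ i → i < b → f i ≠ f (i + 1) → w i ≤ e) →
    (∀ c d, a ≤ c → c ≤ d → d ≤ b → (∀ i, c ≤ i → i ≤ d → f i = f c) →
      ∑ i ∈ Ico c d, w i + e ≤ C) →
    ones (f b) ≤ ones (f a) + J → ∑ i ∈ Ico a b, w i + e ≤ (J + 1) * C := by
  induction J with
  | zero =>
    intro a hab hf hw hC hJ
    rw [zero_add, one_mul]
    apply hC a b le_rfl hab le_rfl
    intro i hi hib
    symm
    apply eq_of_ones (fun k h => chain_le f hf le_rfl hi hib k h)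
    refine le_trans ?_ hJ
    unfold ones
    apply card_le_card
    intro k hk
    rw [mem_filter] at hk ⊢
    exact ⟨hk.1, chain_le f hf hi hib le_rfl k hk.2⟩
  | succ J ih =>
    intro a hab hf hw hC hJ
    by_cases hconst : ∀ i, a ≤ i → i ≤ b → f i = f a
    · refine (hC a b le_rfl hab le_rfl hconst).trans ?_
      exact Nat.le_mul_of_pos_left C (by omega)
    · push Not at hconst
      classical
      set i0 := Nat.find hconst with hi0
      obtain ⟨h1, h2, h3⟩ := Nat.find_spec hconst
      have hmin : ∀ i, i < i0 → a ≤ i → i ≤ b → f i = f a := by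
        intro i hi hai hib
        by_contra hcon
        exact Nat.find_min hconst hi ⟨hai, hib, hcon⟩
      have hai0 : a < i0 := by
        rcases Nat.lt_or_ge a i0 with h | h
        · exact h
        · exfalso
          apply h3
          have : i0 = a := le_antisymm h h1
          rw [← hi0, this]
      obtain ⟨j, hj⟩ : ∃ j, i0 = j + 1 := ⟨i0 - 1, by omega⟩
      rw [← hi0] at h2 h3
      have hja : a ≤ j := by omega
      have hjb : j < b := by omega
      have hfj : f j = f a := hmin j (by omega) hja (by omega)
      have hne : f j ≠ f (j + 1) := by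
        rw [hfj, ← hj]
        exact fun h => h3 h.symm
      have hgrow : ones (f a) + 1 ≤ ones (f (j + 1)) := by
        by_contra hcon
        apply hne
        apply eq_of_ones (hf j hja hjb)
        rw [hfj]
        omega
      have s1 : ∑ i ∈ Ico a j, w i + e ≤ C :=
        hC a j le_rfl hja hjb.le (fun i hi hij => hmin i (by omega) hi (by omega))
      have s2 : w j ≤ e := hw j hja hjb hne
      have s3 : ∑ i ∈ Ico (j + 1) b, w i + e ≤ (J + 1) * C := by
        apply ih (j + 1) hjb
        · exact fun i hi hib => hf i (by omega) hib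
        · exact fun i hi hib => hw i (by omega) hib
        · exact fun c d hc hcd hd => hC c d (by omega) hcd hd
        · omega
      have e1 : ∑ i ∈ Ico a b, w i = ∑ i ∈ Ico a j, w i + (w j + ∑ i ∈ Ico (j + 1) b, w i) := by
        rw [← sum_Ico_consecutive w hja hjb.le, sum_eq_sum_Ico_succ_bot hjb]
      have e2 : (J + 1 + 1) * C = C + (J + 1) * C := by ring
      rw [e1, e2]
      omega

/-- A monotone bit jumps at most once. -/
theorem jump (g : ℕ → Bool) (a b c : ℕ) (hg : ∀ i, a ≤ i → i < b → g i = true → g (i + 1) = true) :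
    ∑ i ∈ Ico a b, (if g i ≠ g (i + 1) then c else 0) ≤ c := by
  rw [← sum_filter, sum_const, smul_eq_mul]
  have h : ((Ico a b).filter (fun i => g i ≠ g (i + 1))).card ≤ 1 := by
    rw [card_le_one]
    have key : ∀ i ∈ (Ico a b).filter (fun i => g i ≠ g (i + 1)),
        ∀ j ∈ (Ico a b).filter (fun i => g i ≠ g (i + 1)), ¬ i < j := by
      intro i hi j hj hij
      rw [mem_filter, mem_Ico] at hi hj
      have h1 : g (i + 1) = true := by
        cases hgi : g i
        · cases hgi1 : g (i + 1)
          · exact absurd (hgi.trans hgi1.symm) hi.2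
          · rfl
        · exact hg i hi.1.1 hi.1.2 hgi
      have h2 : ∀ t, i + 1 ≤ t → t ≤ j → g t = true := by
        intro t ht
        induction t, ht using Nat.le_induction with
        | base => intro _; exact h1
        | succ t ht ih => intro htj; exact hg t (by omega) (by omega) (ih (by omega))
      have h3 := h2 j (by omega) le_rfl
      have h4 := hg j hj.1.1 hj.1.2 h3
      exact hj.2 (h3.trans h4.symm)
    intro i hi j hj
    have h1 := key i hi j hj
    have h2 := key j hj i hi
    omega
  calc _ ≤ 1 * c := Nat.mul_le_mul_right c h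
    _ = c := one_mul c

variable {n R : ℕ}

open Classical in
/-- Few copies are bad, and the reduced programs of the good copies are short. -/
theorem main (A : Alg n R) : ∀ (S : ℕ → Fin R → Bool) (a b Q c : ℕ), a ≤ b →
    (∀ i, a ≤ i → i < b → ∀ r, S i r = true → S (i + 1) r = true) →
    (∀ i, a ≤ i → i ≤ b → weight (ZZ i) (S i) A ≤ Q ∧ time (ZZ i) (S i) A ≤ c) →
    ∑ i ∈ Ico a b, (if Good i (S i) (S (i + 1)) A then 0 else 1) + 1 ≤ Q ∧
    ∑ i ∈ Ico a b, (if Good i (S i) (S (i + 1)) A then
      cost (redu i (S i) (S (i + 1)) A) else 0) ≤ Q * c := by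
  induction A with
  | done out =>
    intro S a b Q c hab hS hQ
    have h1 : ∀ i, Good i (S i) (S (i + 1)) (Alg.done out : Alg n R) := fun i => trivial
    have h2 : ∀ i, cost (redu i (S i) (S (i + 1)) (Alg.done out : Alg n R)) = 0 := fun i => rfl
    simp only [h1, h2, if_true, sum_const_zero]
    refine ⟨?_, Nat.zero_le _⟩
    exact (hQ a le_rfl hab).1
  | thr I A ih =>
    intro S a b Q c hab hS hQ
    set S' : ℕ → Fin R → Bool := fun i => step (ZZ i) (S i) I with hS'
    have hS'm : ∀ i, a ≤ i → i < b → ∀ r, S' i r = true → S' (i + 1) r = true :=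
      fun i hi hib r hr => step_mono (ZZ_mono (Nat.le_succ i)) (hS i hi hib) I r hr
    have hlen : ∀ i, a ≤ i → i ≤ b → (I.src.length + 1) + time (ZZ i) (S' i) A ≤ c :=
      fun i hi hib => (hQ i hi hib).2
    obtain ⟨h1, h2⟩ := ih S' a b Q (c - (I.src.length + 1)) hab hS'm (fun i hi hib =>
      ⟨(hQ i hi hib).1, by have := hlen i hi hib; omega⟩)
    refine ⟨h1, ?_⟩
    have e : ∀ i, (if Good i (S i) (S (i + 1)) (.thr I A) then
        cost (redu i (S i) (S (i + 1)) (.thr I A)) else 0) ≤
        (if S' i I.dst ≠ S' (i + 1) I.dst then (I.src.length + 1) else 0) +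
        (if Good i (S' i) (S' (i + 1)) A then cost (redu i (S' i) (S' (i + 1)) A) else 0) := by
      intro i
      have hG : Good i (S i) (S (i + 1)) (.thr I A) ↔ Good i (S' i) (S' (i + 1)) A := Iff.rfl
      by_cases hg : Good i (S' i) (S' (i + 1)) A
      · rw [if_pos (hG.mpr hg), if_pos hg, redu_thr]
        by_cases hc : step (ZZ i) (S i) I I.dst ≠ step (ZZ (i + 1)) (S (i + 1)) I I.dst
        · rw [if_pos hc, if_pos hc, cost_cons]
          have : (redI i (S i) (S (i + 1)) I).src.length = I.src.length := by
            unfold redI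
            simp
          rw [this]
        · rw [if_neg hc, if_neg hc, zero_add]
      · rw [if_neg (fun h => hg (hG.mp h))]
        exact Nat.zero_le _
    refine (sum_le_sum (fun i _ => e i)).trans ?_
    rw [sum_add_distrib]
    have h3 := jump (fun i => S' i I.dst) a b (I.src.length + 1)
      (fun i hi hib h => hS'm i hi hib I.dst h)
    have h4 := hlen a le_rfl hab
    have h5 : Q * c = Q * (I.src.length + 1) + Q * (c - (I.src.length + 1)) := by
      rw [← mul_add]
      congr 1
      omega
    rw [h5]
    refine Nat.add_le_add (h3.trans ?_) h2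
    exact Nat.le_mul_of_pos_left _ (by omega)
  | special m src w A ih =>
    intro S a b Q c hab hS hQ
    set f : ℕ → Fin m → Bool := fun i => rd (ZZ i) (S i) src with hf
    have hfm : ∀ i, a ≤ i → i < b → ∀ k, f i k = true → f (i + 1) k = true :=
      fun i hi hib k hk => val_mono (ZZ_mono (Nat.le_succ i)) (hS i hi hib) (src k) hk
    set Q' := Q / (m + 1) with hQ'
    have hQQ : (m + 1) * Q' ≤ Q := by
      rw [hQ', mul_comm]
      exact Nat.div_mul_le_self _ _
    have hones : ones (f b) ≤ ones (f a) + m := (ones_le _).trans (by omega)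
    -- constant segments
    have hseg : ∀ c' d, a ≤ c' → c' ≤ d → d ≤ b → (∀ i, c' ≤ i → i ≤ d → f i = f c') →
        ∑ i ∈ Ico c' d, (if Good i (S i) (S (i + 1)) (.special m src w A) then 0 else 1) + 1 ≤ Q' ∧
        ∑ i ∈ Ico c' d, (if Good i (S i) (S (i + 1)) (.special m src w A) then
          cost (redu i (S i) (S (i + 1)) (.special m src w A)) else 0) ≤ Q' * c := by
      intro c' d hc' hcd hd hconst
      set v := f c' with hv
      set S' : ℕ → Fin R → Bool := fun i => put (w v) (S i) with hS'
      have hrd : ∀ i, c' ≤ i → i ≤ d → rd (ZZ i) (S i) src = v := hconst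
      obtain ⟨h1, h2⟩ := ih v S' c' d Q' c hcd
        (fun i hi hid r hr => put_mono (hS i (by omega) (by omega)) (w v) r hr)
        (by
          intro i hi hid
          have h1 := hQ i (by omega) (by omega)
          have e1 : weight (ZZ i) (S i) (.special m src w A) =
              (m + 1) * weight (ZZ i) (S' i) (A v) := by
            show (m + 1) * weight (ZZ i) (put (w (rd (ZZ i) (S i) src)) (S i))
              (A (rd (ZZ i) (S i) src)) = _
            rw [hrd i hi hid]
          have e2 : time (ZZ i) (S i) (.special m src w A) =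
              (m + 1) + time (ZZ i) (S' i) (A v) := by
            show (m + 1) + time (ZZ i) (put (w (rd (ZZ i) (S i) src)) (S i))
              (A (rd (ZZ i) (S i) src)) = _
            rw [hrd i hi hid]
          rw [e1, e2] at h1
          refine ⟨?_, by omega⟩
          rw [hQ', Nat.le_div_iff_mul_le (by omega), mul_comm]
          exact h1.1)
      have hG : ∀ i ∈ Ico c' d, (Good i (S i) (S (i + 1)) (.special m src w A) ↔
          Good i (S' i) (S' (i + 1)) (A v)) := by
        intro i hi
        rw [mem_Ico] at hi
        rw [good_special, hrd i hi.1 hi.2.le, hrd (i + 1) (by omega) (by omega)]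
        exact ⟨fun h => h.2, fun h => ⟨rfl, h⟩⟩
      have hR : ∀ i ∈ Ico c' d, redu i (S i) (S (i + 1)) (.special m src w A) =
          redu i (S' i) (S' (i + 1)) (A v) := by
        intro i hi
        rw [mem_Ico] at hi
        rw [redu_special, hrd i hi.1 hi.2.le]
      constructor
      · rw [sum_congr rfl (fun i hi => by rw [if_congr (hG i hi) rfl rfl])]
        exact h1
      · rw [sum_congr rfl (fun i hi => by rw [if_congr (hG i hi) (by rw [hR i hi]) rfl])]
        exact h2
    have hjmp : ∀ i, a ≤ i → i < b → f i ≠ f (i + 1) →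
        ¬ Good i (S i) (S (i + 1)) (.special m src w A) := by
      intro i _ _ hne hg
      rw [good_special] at hg
      exact hne hg.1
    constructor
    · refine le_trans ?_ hQQ
      apply seg f _ 1 Q' b m a hab hfm ?_ (fun c' d h1 h2 h3 h4 => (hseg c' d h1 h2 h3 h4).1) hones
      intro i hi hib hne
      split_ifs <;> omega
    · have h1 := seg f (fun i => if Good i (S i) (S (i + 1)) (.special m src w A) then
          cost (redu i (S i) (S (i + 1)) (.special m src w A)) else 0) 0 (Q' * c) b m a hab hfm
          (by
            intro i hi hib hne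
            rw [if_neg (hjmp i hi hib hne)])
          (fun c' d h1 h2 h3 h4 => (hseg c' d h1 h2 h3 h4).2) hones
      refine le_trans h1 ?_
      rw [← mul_assoc]
      exact Nat.mul_le_mul_right c hQQ

end Pool.Agent.Helper54K9.GT
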