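import Pool.Agent.Helper54K9.GT.Cnt
import Pool.Agent.Helper54K9.GT.Seg

/-!
Branching algorithms with few non-monotone steps (MP_0f1f76_lc): averaging and the lower bound.
-/

set_option autoImplicit false

namespace Pool.Agent.Helper54K9.GT

open Finset

variable {n R : ℕ}

/-- Copy `i` outputs column `k` of `M` if its vector is the unit vector `e_k`, the vectors before
it are all-ones and the vectors after it are zero (all registers are 0 at the start). -/
def Correct (A : Alg n R) (M : Matrix (Fin n) (Fin n) Bool) (q : Fin n × Fin n) : Prop :=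
  ∀ j, eval (XV q.1 (unit q.2)) (fun _ => false) A q.1 j = M j q.2

open Classical in
/-- There is a random algorithm (with any number `R` of registers) of weight at most `Q` and of
expected running time at most `s` in the worst case which is correct with probability at least `1/2`
on average over the `n^2` test inputs (`c a` bounds the running time of `A a` for all inputs). -/
def Easy (n Q : ℕ) (s : ℝ) (M : Matrix (Fin n) (Fin n) Bool) : Prop :=
  ∃ (R m : ℕ) (w : Fin m → ℝ) (A : Fin m → Alg n R) (c : Fin m → ℕ), (∀ a, 0 ≤ w a) ∧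
    ∑ a, w a = 1 ∧
    (∀ a x, weight x (fun _ => false) (A a) ≤ Q ∧ time x (fun _ => false) (A a) ≤ c a) ∧
    1 / 2 * (n : ℝ) ^ 2 ≤ ∑ a, w a * ((univ.filter (Correct (A a) M)).card : ℝ) ∧
    ∑ a, w a * (c a : ℝ) ≤ s

/-- The renamed operand. -/
def ren {R R' : ℕ} (D : Finset (Fin R)) (f : Fin R → Fin R') : Ref (Fin n) R → Ref (Fin n) R'
  | .inl b => .inl b
  | .inr (.inl k) => .inr (.inl k)
  | .inr (.inr r) => if r ∈ D then .inr (.inr (f r)) else .inl false

theorem ren_val {R R' : ℕ} {D : Finset (Fin R)} {f : Fin R → Fin R'} {v : Fin n → Bool}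
    {ρ : Fin R → Bool} {ρ' : Fin R' → Bool} (h1 : ∀ r ∈ D, ρ' (f r) = ρ r)
    (h2 : ∀ r, r ∉ D → ρ r = false) (q : Ref (Fin n) R) : val v ρ' (ren D f q) = val v ρ q := by
  rcases q with b | k | r
  · rfl
  · rfl
  · show val v ρ' (if r ∈ D then .inr (.inr (f r)) else .inl false) = ρ r
    by_cases hr : r ∈ D
    · rw [if_pos hr]
      exact h1 r hr
    · rw [if_neg hr]
      exact (h2 r hr).symm

/-- The renamed instruction. -/
def renI {R R' : ℕ} (D : Finset (Fin R)) (f : Fin R → Fin R') (I : Instr (Fin n) R) :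
    Instr (Fin n) R' := ⟨f I.dst, I.thr, I.src.map (ren D f)⟩

theorem ren_run {R R' : ℕ} {D : Finset (Fin R)} {f : Fin R → Fin R'}
    (hf : ∀ r ∈ D, ∀ r' ∈ D, f r = f r' → r = r') (v : Fin n → Bool)
    (P : List (Instr (Fin n) R)) : ∀ (ρ : Fin R → Bool) (ρ' : Fin R' → Bool),
    (∀ I ∈ P, I.dst ∈ D) → (∀ r ∈ D, ρ' (f r) = ρ r) → (∀ r, r ∉ D → ρ r = false) →
    (∀ r ∈ D, run v ρ' (P.map (renI D f)) (f r) = run v ρ P r) ∧
      ∀ r, r ∉ D → run v ρ P r = false := by
  induction P with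
  | nil => intro ρ ρ' _ h1 h2; exact ⟨h1, h2⟩
  | cons I P ih =>
    intro ρ ρ' hD h1 h2
    have hI : I.dst ∈ D := hD I (List.mem_cons_self)
    have hnew : step v ρ' (renI D f I) (f I.dst) = step v ρ I I.dst := by
      have e1 : step v ρ' (renI D f I) (renI D f I).dst =
          decide ((renI D f I).thr ≤ (renI D f I).src.countP (val v ρ')) := step_dst _ _ _
      refine Eq.trans e1 ?_
      rw [step_dst]
      unfold renI
      simp only
      rw [List.countP_map]
      have e3 : (val v ρ' ∘ ren D f) = val v ρ := by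
        funext q
        exact ren_val h1 h2 q
      rw [e3]
    apply ih (step v ρ I) (step v ρ' (renI D f I)) (fun J hJ => hD J (List.mem_cons_of_mem _ hJ))
    · intro r hr
      by_cases hd : r = I.dst
      · rw [hd]; exact hnew
      · rw [step_ne _ _ _ hd, step_ne v ρ' (renI D f I) (r := f r)
          (fun h => hd (hf r hr I.dst hI h))]
        exact h1 r hr
    · intro r hr
      have hne : r ≠ I.dst := fun h => hr (by rw [h]; exact hI)
      rw [step_ne _ _ _ hne]
      exact h2 r hr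

/-- A program needs no more registers than instructions. -/
theorem rename {R T : ℕ} (code : List (Instr (Fin n) R)) (out : Fin n → Ref (Fin n) R)
    (hT : cost code ≤ T) (hthr : ∀ J ∈ code, J.thr ≤ J.src.length + 1) :
    ∃ (code' : List (Instr (Fin n) (T + 1))) (out' : Fin n → Ref (Fin n) (T + 1)),
      cost code' ≤ T ∧ (∀ J ∈ code', J.thr ≤ J.src.length + 1) ∧
      ∀ v j, val v (run v (fun _ => false) code') (out' j) =
        val v (run v (fun _ => false) code) (out j) := by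
  classical
  set D : Finset (Fin R) := (code.map (fun I => I.dst)).toFinset with hD
  have hlen : code.length ≤ cost code := by
    clear hT hthr hD
    clear D
    induction code with
    | nil => exact Nat.zero_le _
    | cons I P ih => rw [cost_cons, List.length_cons]; omega
  have hDc : D.card ≤ T + 1 := by
    have h1 : D.card ≤ (code.map (fun I => I.dst)).length := by
      rw [hD]
      exact List.toFinset_card_le _
    rw [List.length_map] at h1
    omega
  set f : Fin R → Fin (T + 1) := fun r => if h : r ∈ D then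
    Fin.castLE hDc (D.equivFin ⟨r, h⟩) else 0 with hf
  have hfi : ∀ r ∈ D, ∀ r' ∈ D, f r = f r' → r = r' := by
    intro r hr r' hr' h
    rw [hf] at h
    simp only [dif_pos hr, dif_pos hr'] at h
    have h1 := D.equivFin.injective (Fin.castLE_injective hDc h)
    exact congrArg Subtype.val h1
  have hdst : ∀ I ∈ code, I.dst ∈ D := by
    intro I hI
    rw [hD, List.mem_toFinset, List.mem_map]
    exact ⟨I, hI, rfl⟩
  refine ⟨code.map (renI D f), fun j => ren D f (out j), ?_, ?_, ?_⟩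
  · have : cost (code.map (renI D f)) = cost code := by
      unfold cost
      rw [List.map_map]
      congr 1
      apply List.map_congr_left
      intro I _
      simp [renI]
    rw [this]
    exact hT
  · intro J hJ
    rw [List.mem_map] at hJ
    obtain ⟨I, hI, rfl⟩ := hJ
    unfold renI
    simp only [List.length_map]
    exact hthr I hI
  · intro v j
    obtain ⟨h1, h2⟩ := ren_run hfi v code (fun _ => false) (fun _ => false) hdst
      (fun _ _ => rfl) (fun _ _ => rfl)
    exact ren_val h1 h2 (out j)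

theorem exists_nonneg {ι : Type} [Fintype ι] (w y : ι → ℝ) (hw : ∀ a, 0 ≤ w a)
    (h1 : ∑ a, w a = 1) (h : 0 ≤ ∑ a, w a * y a) : ∃ a, 0 ≤ y a := by
  by_contra hcon
  push Not at hcon
  have h2 : ∀ a ∈ (univ : Finset ι), w a * y a ≤ 0 :=
    fun a _ => mul_nonpos_of_nonneg_of_nonpos (hw a) (hcon a).le
  have h3 : ∑ a, w a * y a = 0 := le_antisymm (sum_nonpos h2) h
  rw [sum_eq_zero_iff_of_nonpos h2] at h3
  have h4 : ∀ a, w a = 0 := by
    intro a
    have := h3 a (mem_univ a)
    rcases mul_eq_zero.mp this with h5 | h5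
    · exact h5
    · exact absurd h5 (hcon a).ne
  simp [h4] at h1

open Classical in
theorem extract {s : ℝ} {Q : ℕ} (hn : 0 < n) (hQ0 : 0 < Q) (ht : 6 * Q ≤ n) (hs : 0 < s)
    {M : Matrix (Fin n) (Fin n) Bool} (h : Easy n Q s M) :
    ∃ (R : ℕ) (code : List (Instr (Fin n) R)) (out : Fin n → Ref (Fin n) R)
      (K : Finset (Fin n)), (n : ℝ) / 6 ≤ K.card ∧ (cost code : ℝ) ≤ 5 * ((Q : ℝ) * s) / n ∧
      (∀ J ∈ code, J.thr ≤ J.src.length + 1) ∧ Does code out K M := by
  obtain ⟨R, m, w, P, c, hw, hw1, hneg, hcor, hcost⟩ := h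
  have hn0 : (0 : ℝ) < n := by exact_mod_cast hn
  have ht0 : (0 : ℝ) < (Q : ℝ) := by exact_mod_cast hQ0
  set Gd : Fin m → Finset (Fin n) := fun a => univ.filter
    (fun i => Good i.1 (fun _ : Fin R => false) (fun _ => false) (P a)) with hGd
  set KK : Fin m → Fin n → Finset (Fin n) := fun a i =>
    univ.filter (fun k => Correct (P a) M (i, k)) with hKK
  set cc : Fin m → Fin n → List (Instr (Fin n) R) := fun a i =>
    redu i.1 (fun _ => false) (fun _ => false) (P a) with hcc
  have hmain : ∀ a, ((univ : Finset (Fin n)) \ Gd a).card + 1 ≤ Q ∧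
      ∑ i ∈ Gd a, cost (cc a i) ≤ Q * c a := by
    intro a
    obtain ⟨m1, m2⟩ := main (P a) (fun _ _ => false) 0 n Q (c a) (Nat.zero_le _)
      (fun _ _ _ _ h => h) (fun i _ _ => hneg a (ZZ i))
    rw [← range_eq_Ico, sum_range] at m1 m2
    constructor
    · refine le_trans (le_of_eq ?_) m1
      congr 1
      rw [card_eq_sum_ones, ← sum_filter_add_sum_filter_not univ
        (fun i : Fin n => Good i.1 (fun _ : Fin R => false) (fun _ => false) (P a))]
      have e1 : ∑ i ∈ univ.filter (fun i : Fin n => Good i.1 (fun _ : Fin R => false)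
          (fun _ => false) (P a)), (if Good i.1 (fun _ : Fin R => false)
          (fun _ => false) (P a) then 0 else 1) = 0 := by
        apply sum_eq_zero
        intro i hi
        rw [if_pos (mem_filter.mp hi).2]
      have e2 : ∑ i ∈ univ.filter (fun i : Fin n => ¬ Good i.1 (fun _ : Fin R => false)
          (fun _ => false) (P a)), (if Good i.1 (fun _ : Fin R => false)
          (fun _ => false) (P a) then 0 else 1) = ∑ i ∈ univ \ Gd a, 1 := by
        apply sum_congr
        · ext i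
          rw [hGd, mem_filter, mem_sdiff, mem_filter]
          constructor
          · rintro ⟨_, h⟩; exact ⟨mem_univ _, fun h' => h h'.2⟩
          · rintro ⟨_, h⟩; exact ⟨mem_univ _, fun h' => h ⟨mem_univ _, h'⟩⟩
        · intro i hi
          rw [hGd, mem_sdiff, mem_filter] at hi
          rw [if_neg (fun h => hi.2 ⟨mem_univ _, h⟩)]
      rw [e1, e2, zero_add]
    · rw [hGd]
      simp only
      rw [sum_filter]
      exact m2
  have hKn : ∀ a i, ((KK a i).card : ℝ) ≤ n := by
    intro a i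
    have := card_le_univ (KK a i)
    rw [Fintype.card_fin] at this
    exact_mod_cast this
  have hbadF : ∀ a, (((univ : Finset (Fin n)) \ Gd a).card : ℝ) ≤ n / 6 := by
    intro a
    have h2 := (hmain a).1
    have h3 : 6 * (((univ : Finset (Fin n)) \ Gd a).card + 1) ≤ n := by omega
    have h4 : (6 : ℝ) * ((((univ : Finset (Fin n)) \ Gd a).card : ℝ) + 1) ≤ n := by
      exact_mod_cast h3
    linarith
  -- the number of good pairs
  have hpairs : ∀ a, ((univ.filter (Correct (P a) M)).card : ℝ) - (n : ℝ) ^ 2 / 6 ≤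
      ∑ i ∈ Gd a, ((KK a i).card : ℝ) := by
    intro a
    have h2 : (univ.filter (Correct (P a) M)).card = ∑ i, (KK a i).card := by
      rw [card_filter, Fintype.sum_prod_type]
      apply sum_congr rfl
      intro i _
      rw [hKK]
      simp only
      rw [card_filter]
    have h3 : ∑ i, ((KK a i).card : ℝ) = ∑ i ∈ univ \ Gd a, ((KK a i).card : ℝ) +
        ∑ i ∈ Gd a, ((KK a i).card : ℝ) := (sum_sdiff (subset_univ (Gd a))).symm
    have h4 : ∑ i ∈ univ \ Gd a, ((KK a i).card : ℝ) ≤ n / 6 * n := by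
      calc ∑ i ∈ univ \ Gd a, ((KK a i).card : ℝ) ≤ ∑ _i ∈ univ \ Gd a, (n : ℝ) :=
            sum_le_sum (fun i _ => hKn a i)
        _ = ((univ : Finset (Fin n)) \ Gd a).card * n := by rw [sum_const, nsmul_eq_mul]
        _ ≤ n / 6 * n := mul_le_mul_of_nonneg_right (hbadF a) hn0.le
    rw [h2]
    push_cast
    rw [h3]
    nlinarith
  have hsumK : (n : ℝ) ^ 2 / 3 ≤ ∑ a, w a * ∑ i ∈ Gd a, ((KK a i).card : ℝ) := by
    have h1 : ∑ a, w a * (((univ.filter (Correct (P a) M)).card : ℝ) - (n : ℝ) ^ 2 / 6) ≤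
        ∑ a, w a * ∑ i ∈ Gd a, ((KK a i).card : ℝ) :=
      sum_le_sum (fun a _ => mul_le_mul_of_nonneg_left (hpairs a) (hw a))
    have h2 : ∑ a, w a * (((univ.filter (Correct (P a) M)).card : ℝ) - (n : ℝ) ^ 2 / 6) =
      (∑ a, w a * ((univ.filter (Correct (P a) M)).card : ℝ)) - (n : ℝ) ^ 2 / 6 := by
      simp only [mul_sub, sum_sub_distrib]
      rw [← sum_mul, hw1, one_mul]
    linarith
  have hsumc : ∑ a, w a * ∑ i ∈ Gd a, (cost (cc a i) : ℝ) ≤ (Q : ℝ) * s := by
    have h1 : ∀ a, ∑ i ∈ Gd a, (cost (cc a i) : ℝ) ≤ (Q : ℝ) * c a := by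
      intro a
      exact_mod_cast (hmain a).2
    calc ∑ a, w a * ∑ i ∈ Gd a, (cost (cc a i) : ℝ) ≤
        ∑ a, w a * ((Q : ℝ) * c a) :=
          sum_le_sum (fun a _ => mul_le_mul_of_nonneg_left (h1 a) (hw a))
      _ = (Q : ℝ) * ∑ a, w a * (c a : ℝ) := by
          rw [mul_sum]
          apply sum_congr rfl
          intro a _
          ring
      _ ≤ (Q : ℝ) * s := mul_le_mul_of_nonneg_left hcost ht0.le
  -- averaging
  set s' : ℝ := (Q : ℝ) * s with hs'
  have hs'0 : 0 < s' := by positivity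
  set lam : ℝ := (n : ℝ) ^ 2 / (6 * s') with hlam
  have hlam0 : 0 < lam := by positivity
  have hall : 0 ≤ ∑ a, w a * ∑ i ∈ Gd a, (((KK a i).card : ℝ) - n / 6 - lam * cost (cc a i)) := by
    have h1 : ∀ a, ∑ i ∈ Gd a, ((KK a i).card : ℝ) - (n : ℝ) ^ 2 / 6 -
        lam * ∑ i ∈ Gd a, (cost (cc a i) : ℝ) ≤
        ∑ i ∈ Gd a, (((KK a i).card : ℝ) - n / 6 - lam * cost (cc a i)) := by
      intro a
      rw [sum_sub_distrib, sum_sub_distrib, ← mul_sum, sum_const, nsmul_eq_mul]
      have h2 : ((Gd a).card : ℝ) ≤ n := by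
        have := card_le_univ (Gd a)
        rw [Fintype.card_fin] at this
        exact_mod_cast this
      have h3 : ((Gd a).card : ℝ) * (n / 6) ≤ n * (n / 6) :=
        mul_le_mul_of_nonneg_right h2 (by positivity)
      have h4 : (n : ℝ) * (n / 6) = (n : ℝ) ^ 2 / 6 := by ring
      linarith
    have h2 : ∑ a, w a * (∑ i ∈ Gd a, ((KK a i).card : ℝ) - (n : ℝ) ^ 2 / 6 -
        lam * ∑ i ∈ Gd a, (cost (cc a i) : ℝ)) =
        ∑ a, w a * ∑ i ∈ Gd a, ((KK a i).card : ℝ) - (n : ℝ) ^ 2 / 6 -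
        lam * ∑ a, w a * ∑ i ∈ Gd a, (cost (cc a i) : ℝ) := by
      simp only [mul_sub, sum_sub_distrib]
      rw [← sum_mul, hw1, one_mul, mul_sum]
      congr 1
      apply sum_congr rfl
      intro a _
      ring
    have h5 := sum_le_sum (fun a (_ : a ∈ (univ : Finset (Fin m))) =>
      mul_le_mul_of_nonneg_left (h1 a) (hw a))
    rw [h2] at h5
    refine le_trans ?_ h5
    have h3 : lam * ∑ a, w a * ∑ i ∈ Gd a, (cost (cc a i) : ℝ) ≤ lam * s' :=
      mul_le_mul_of_nonneg_left hsumc hlam0.le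
    have h4 : lam * s' = (n : ℝ) ^ 2 / 6 := by
      rw [hlam]
      field_simp
    linarith
  obtain ⟨a, ha⟩ := exists_nonneg w _ hw hw1 hall
  have hne : (Gd a).Nonempty := by
    rw [nonempty_iff_ne_empty]
    intro he
    have h1 := hbadF a
    rw [he, sdiff_empty, card_univ, Fintype.card_fin] at h1
    linarith
  obtain ⟨i, hiG, hi⟩ := exists_le_of_sum_le (f := fun _ : Fin n => (0 : ℝ))
    (g := fun i => ((KK a i).card : ℝ) - n / 6 - lam * cost (cc a i)) hne (by
      rw [sum_const_zero]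
      exact ha)
  have hc0 : (0 : ℝ) ≤ cost (cc a i) := Nat.cast_nonneg _
  have hKni := hKn a i
  refine ⟨R, cc a i, redOut i (fun _ => false) (fun _ => false) (P a), KK a i, ?_, ?_, ?_, ?_⟩
  · have := mul_nonneg hlam0.le hc0
    linarith
  · have h1 : lam * cost (cc a i) ≤ 5 * n / 6 := by linarith
    rw [hlam] at h1
    rw [le_div_iff₀ hn0]
    have h2 : (n : ℝ) ^ 2 / (6 * s') * cost (cc a i) = (n * (n * cost (cc a i))) / (6 * s') := by
      ring
    rw [h2, div_le_iff₀ (by positivity)] at h1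
    have h3 : (n : ℝ) * (n * cost (cc a i)) ≤ n * (5 * s') := by
      calc (n : ℝ) * (n * cost (cc a i)) ≤ 5 * n / 6 * (6 * s') := h1
        _ = n * (5 * s') := by ring
    have h4 := le_of_mul_le_mul_left h3 hn0
    linarith
  · exact thr_redu i.1 (P a) _ _
  · intro k hk j
    rw [hKK, mem_filter] at hk
    obtain ⟨_, hk1⟩ := hk
    rw [hGd, mem_filter] at hiG
    have hinv0 : Inv (fun _ : Fin R => false) (fun _ => false) (fun _ => false)
        (fun _ => false) := ⟨fun _ h => h, fun _ h => h, fun _ _ => rfl⟩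
    rw [← hk1 j]
    exact exact_run (i := i) (v := unit k) (P a) hinv0 hiG.2 j

open Classical in
/-- The lower bound, with explicit constants. -/
theorem lower (n Q : ℕ) (hn' : 200 * (Nat.log 2 n + 1) ≤ n) (hQ0 : 1 ≤ Q) (ht : 6 * Q ≤ n) :
    (((univ : Finset (Matrix (Fin n) (Fin n) Bool)).filter
      (Easy n Q ((n : ℝ) ^ 3 / (2000 * Q * ((Nat.log 2 n : ℝ) + 1))))).card : ℝ) ≤
        (2 : ℝ) ^ (9 / 10 * (n : ℝ) ^ 2) := by
  obtain ⟨L, hLdef⟩ : ∃ L, L = 2 * (Nat.log 2 n + 1) := ⟨_, rfl⟩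
  have hL : 1 ≤ L := by omega
  have hn : 100 * L ≤ n := by omega
  have hLeq : (n : ℝ) ^ 3 / (2000 * Q * ((Nat.log 2 n : ℝ) + 1)) =
      (n : ℝ) ^ 3 / (1000 * Q * L) := by
    rw [hLdef]
    push_cast
    congr 1
    ring
  rw [hLeq]
  have hn0 : 0 < n := by omega
  have hnR : (0 : ℝ) < n := by exact_mod_cast hn0
  have hLR : (0 : ℝ) < L := by exact_mod_cast hL
  have hQR : (0 : ℝ) < Q := by exact_mod_cast hQ0
  set s : ℝ := (n : ℝ) ^ 3 / (1000 * Q * L) with hs
  have hs0 : 0 < s := by positivity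
  set T : ℕ := ⌊5 * ((Q : ℝ) * s) / n⌋₊ with hT
  set m : ℕ := ⌈(n : ℝ) / 6⌉₊ with hm
  have h := count (R := T + 1) T m ((univ : Finset (Matrix (Fin n) (Fin n) Bool)).filter
      (Easy n Q s)) (by
    intro M hM
    rw [mem_filter] at hM
    obtain ⟨R, code, out, K, h1, h2, h3, h4⟩ := extract hn0 hQ0 ht hs0 hM.2
    obtain ⟨code', out', h5, h6, h7⟩ := rename code out (Nat.le_floor h2) h3
    refine ⟨code', out', K, Nat.ceil_le.mpr h1, h5, h6, ?_⟩
    intro k hk j
    rw [h7]
    exact h4 k hk j)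
  -- bounds in powers of two
  have hTs : (T : ℝ) ≤ (n : ℝ) ^ 2 / (200 * L) := by
    refine (Nat.floor_le (by positivity)).trans (le_of_eq ?_)
    rw [hs]
    field_simp
    norm_num
  have hTL : (T : ℝ) * L ≤ (n : ℝ) ^ 2 / 200 := by
    rw [le_div_iff₀ (by positivity)] at hTs
    linarith
  have hLn : (L : ℝ) * 100 ≤ n := by
    have : ((100 * L : ℕ) : ℝ) ≤ n := by exact_mod_cast hn
    push_cast at this
    linarith
  have hn100 : (100 : ℝ) ≤ n := by
    have : (1 : ℝ) ≤ L := by exact_mod_cast hL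
    linarith
  have hTn : T + 3 ≤ n ^ 2 := by
    have h1 : (T : ℝ) ≤ (n : ℝ) ^ 2 / 200 := by
      have : (T : ℝ) ≤ T * L := by
        have h1 : (1 : ℝ) ≤ L := by exact_mod_cast hL
        have h2 : (0 : ℝ) ≤ T := Nat.cast_nonneg T
        nlinarith
      linarith
    have h2 : (T : ℝ) + 3 ≤ (n : ℝ) ^ 2 := by nlinarith
    exact_mod_cast h2
  obtain ⟨R, hRdef⟩ : ∃ R, R = T + 1 := ⟨_, rfl⟩
  rw [← hRdef] at h
  have hR : n + R ≤ 2 ^ L := by
    have h1 : n < 2 ^ (Nat.log 2 n + 1) := Nat.lt_pow_succ_log_self (by norm_num) n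
    have h2 : 2 ^ L = 2 ^ (Nat.log 2 n + 1) * 2 ^ (Nat.log 2 n + 1) := by
      rw [← pow_add, hLdef]
      congr 1
      ring
    rw [h2]
    have h3 : n * (n + 1) ≤ 2 ^ (Nat.log 2 n + 1) * 2 ^ (Nat.log 2 n + 1) :=
      Nat.mul_le_mul h1.le h1
    have h4 : n * (n + 1) = n ^ 2 + n := by ring
    omega
  have hB : 2 + (n + R) ≤ 2 ^ (2 * L) := by
    have h1 : 2 ≤ 2 ^ L := by
      calc 2 = 2 ^ 1 := by norm_num
        _ ≤ 2 ^ L := Nat.pow_le_pow_right (by norm_num) hL
    rw [two_mul, pow_add]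
    nlinarith
  have hA : 1 + (R * (T + 2) + (2 + (n + R))) ≤ 2 ^ (4 * L) := by
    have hn2 : n ≤ 2 ^ L := by omega
    have hR2 : R ≤ 2 ^ L := by omega
    have h16 : 16 ≤ 2 ^ L := by omega
    have h1 : R * (T + 3) ≤ 2 ^ L * (2 ^ L) ^ 2 := by
      apply Nat.mul_le_mul hR2
      exact hTn.trans (Nat.pow_le_pow_left hn2 2)
    have h2 : 2 ^ (4 * L) = 2 ^ L * (2 ^ L * (2 ^ L) ^ 2) := by
      rw [← pow_mul, ← pow_add, ← pow_add]
      congr 1
      ring
    have e : 1 + (R * (T + 2) + (2 + (n + R))) = R * (T + 3) + (n + 3) := by ring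
    rw [e, h2]
    set X := 2 ^ L with hX
    have h3 : n + 3 ≤ X * X ^ 2 := by nlinarith
    nlinarith
  have h2 : ((univ : Finset (Matrix (Fin n) (Fin n) Bool)).filter (Easy n Q s)).card ≤
      2 ^ (n * (n - m) + (n + (4 * L * T + 2 * L * n))) := by
    refine h.trans ?_
    rw [pow_add, pow_add, pow_add]
    apply Nat.mul_le_mul_left
    apply Nat.mul_le_mul_left
    rw [pow_mul 2 (4 * L) T, pow_mul 2 (2 * L) n]
    exact Nat.mul_le_mul (Nat.pow_le_pow_left hA T) (Nat.pow_le_pow_left hB n)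
  have h3 : (((univ : Finset (Matrix (Fin n) (Fin n) Bool)).filter (Easy n Q s)).card : ℝ) ≤
      (2 : ℝ) ^ (((n * (n - m) + (n + (4 * L * T + 2 * L * n)) : ℕ)) : ℝ) := by
    rw [Real.rpow_natCast]
    exact_mod_cast h2
  refine h3.trans (Real.rpow_le_rpow_of_exponent_le (by norm_num) ?_)
  have hm1 : (n : ℝ) / 6 ≤ m := Nat.le_ceil _
  have hmn : m ≤ n := by
    apply Nat.ceil_le.mpr
    linarith
  push_cast [Nat.cast_sub hmn]
  have g1 : (n : ℝ) * (n - m) ≤ n * (n - n / 6) := by
    apply mul_le_mul_of_nonneg_left _ hnR.le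
    linarith
  have g2 : 4 * (L : ℝ) * T ≤ (n : ℝ) ^ 2 / 50 := by nlinarith
  have g3 : 2 * (L : ℝ) * n ≤ (n : ℝ) ^ 2 / 50 := by nlinarith
  have g4 : (n : ℝ) ≤ (n : ℝ) ^ 2 / 100 := by nlinarith
  nlinarith

end Pool.Agent.Helper54K9.GT
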