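import Pool.Agent.Helper54K9.GT.Def

/-!
Branching algorithms with few non-monotone steps (MP_0f1f76_lc): the upper bound (tables of the disjunctions of
short blocks).
-/

set_option autoImplicit false

namespace Pool.Agent.Helper54K9.GT

open Finset

section lists

variable {ι α : Type} {R : ℕ}

/-- Instructions with different targets which only depend on the registers in `W`. -/
theorem run_list (x : ι → Bool) (ins : α → Instr ι R) (F : α → Bool) (W : Fin R → Prop)
    (ρ0 : Fin R → Bool) (hW : ∀ a, ¬ W (ins a).dst)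
    (hF : ∀ a ρ, (∀ r, W r → ρ r = ρ0 r) →
      decide ((ins a).thr ≤ (ins a).src.countP (val x ρ)) = F a)
    (hinj : Function.Injective (fun a => (ins a).dst)) (l : List α) :
    ∀ ρ : Fin R → Bool, (∀ r, W r → ρ r = ρ0 r) →
      (∀ r, W r → run x ρ (l.map ins) r = ρ0 r) ∧
      ∀ a, (a ∈ l ∨ ρ (ins a).dst = F a) → run x ρ (l.map ins) (ins a).dst = F a := by
  induction l with
  | nil =>
    intro ρ hρ
    refine ⟨hρ, ?_⟩
    intro a ha
    rcases ha with ha | ha
    · simp at ha
    · exact ha
  | cons a0 l ih =>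
    intro ρ hρ
    have e : run x ρ ((a0 :: l).map ins) = run x (step x ρ (ins a0)) (l.map ins) := rfl
    have h0 : step x ρ (ins a0) (ins a0).dst = F a0 := by
      unfold step
      rw [Function.update_self]
      exact hF a0 ρ hρ
    have hoth : ∀ r, r ≠ (ins a0).dst → step x ρ (ins a0) r = ρ r := by
      intro r hr
      unfold step
      rw [Function.update_of_ne hr]
    have hρ' : ∀ r, W r → step x ρ (ins a0) r = ρ0 r := by
      intro r hr
      rw [hoth r (fun h => hW a0 (h ▸ hr))]
      exact hρ r hr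
    obtain ⟨h1, h2⟩ := ih _ hρ'
    rw [e]
    refine ⟨h1, ?_⟩
    intro a ha
    apply h2
    by_cases haa : a = a0
    · right
      rw [haa]
      exact h0
    · rcases ha with ha | ha
      · rw [List.mem_cons] at ha
        rcases ha with ha | ha
        · exact absurd ha haa
        · exact Or.inl ha
      · right
        rw [hoth _ (fun h => haa (hinj h))]
        exact ha

theorem cost_append (P Q : List (Instr ι R)) : cost (P ++ Q) = cost P + cost Q := by
  unfold cost
  rw [List.map_append, List.sum_append]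

theorem cost_map (ins : α → Instr ι R) (c : ℕ) (h : ∀ a, (ins a).src.length + 1 = c)
    (l : List α) : cost (l.map ins) = l.length * c := by
  unfold cost
  induction l with
  | nil => simp
  | cons a l ih =>
    rw [List.map_cons, List.map_cons, List.sum_cons, ih, h a, List.length_cons]
    ring

end lists

section ofList

variable {n R : ℕ}

/-- The straight-line algorithm with given instructions and outputs. -/
def ofList (out : Fin n → Fin n → Ref (Fin n × Fin n) R) :
    List (Instr (Fin n × Fin n) R) → Alg n R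
  | [] => .done out
  | I :: P => .thr I (ofList out P)

theorem ofList_all (out : Fin n → Fin n → Ref (Fin n × Fin n) R) (x : Fin n × Fin n → Bool)
    (P : List (Instr (Fin n × Fin n) R)) : ∀ ρ : Fin R → Bool,
    weight x ρ (ofList out P) = 1 ∧ time x ρ (ofList out P) = cost P ∧
      ∀ i j, eval x ρ (ofList out P) i j = val x (run x ρ P) (out i j) := by
  induction P with
  | nil => intro ρ; exact ⟨rfl, rfl, fun _ _ => rfl⟩
  | cons I P ih =>
    intro ρ
    obtain ⟨h1, h2, h3⟩ := ih (step x ρ I)
    refine ⟨h1, ?_, h3⟩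
    rw [cost_cons, ← h2]
    rfl

end ofList

section build

variable {n : ℕ} (b G : ℕ)

/-- The names of the registers. -/
abbrev Reg (n b G : ℕ) := (Fin n × Fin G × (Fin b → Bool)) ⊕ (Fin n × Fin n)

/-- The number of the registers. -/
abbrev RR (n b G : ℕ) : ℕ := Fintype.card (Reg n b G)

noncomputable def nm (n b G : ℕ) : Reg n b G ≃ Fin (RR n b G) := Fintype.equivFin _

/-- The disjunction of the entries of a block of the vector `i`. -/
noncomputable def ins1 (a : Fin n × Fin G × (Fin b → Bool)) : Instr (Fin n × Fin n) (RR n b G) where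
  dst := nm n b G (.inl a)
  thr := 1
  src := List.ofFn (fun t : Fin b => if h : a.2.1.1 * b + t.1 < n then
    (if a.2.2 t = true then .inr (.inl (a.1, ⟨a.2.1.1 * b + t.1, h⟩)) else .inl false)
    else .inl false)

/-- The part of a row in a block. -/
def pat (M : Matrix (Fin n) (Fin n) Bool) (j : Fin n) (g : Fin G) : Fin b → Bool :=
  fun t => if h : g.1 * b + t.1 < n then M j ⟨g.1 * b + t.1, h⟩ else false

/-- The output `j` of copy `i`. -/
noncomputable def ins2 (M : Matrix (Fin n) (Fin n) Bool) (q : Fin n × Fin n) :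
    Instr (Fin n × Fin n) (RR n b G) where
  dst := nm n b G (.inr q)
  thr := 1
  src := List.ofFn (fun g : Fin G => .inr (.inr (nm n b G (.inl (q.1, g, pat b G M q.2 g)))))

/-- The instructions. -/
noncomputable def code (M : Matrix (Fin n) (Fin n) Bool) :
    List (Instr (Fin n × Fin n) (RR n b G)) :=
  (univ : Finset (Fin n × Fin G × (Fin b → Bool))).toList.map (ins1 b G) ++
    (univ : Finset (Fin n × Fin n)).toList.map (ins2 b G M)

/-- The algorithm. -/
noncomputable def prog (M : Matrix (Fin n) (Fin n) Bool) : Alg n (RR n b G) :=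
  ofList (fun i j => .inr (.inr (nm n b G (.inr (i, j))))) (code b G M)

theorem one_le_countP {β : Type} {k : ℕ} (p : β → Bool) (f : Fin k → β) :
    1 ≤ (List.ofFn f).countP p ↔ ∃ t, p (f t) = true := by
  rw [Nat.one_le_iff_ne_zero, ← Nat.pos_iff_ne_zero, List.countP_pos_iff]
  constructor
  · rintro ⟨a, ha, hp⟩
    rw [List.mem_ofFn] at ha
    obtain ⟨t, rfl⟩ := ha
    exact ⟨t, hp⟩
  · rintro ⟨t, ht⟩
    exact ⟨f t, by rw [List.mem_ofFn]; exact ⟨t, rfl⟩, ht⟩

theorem prog_eval (hb : 0 < b) (hG : n ≤ G * b) (M : Matrix (Fin n) (Fin n) Bool)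
    (x : Fin n × Fin n → Bool) (i j : Fin n) :
    eval x (fun _ => false) (prog b G M) i j = decide (∃ k, M j k = true ∧ x (i, k) = true) := by
  set F1 : Fin n × Fin G × (Fin b → Bool) → Bool := fun a => decide (∃ t : Fin b,
    ∃ h : a.2.1.1 * b + t.1 < n, a.2.2 t = true ∧ x (a.1, ⟨a.2.1.1 * b + t.1, h⟩) = true) with hF1
  have h1 : ∀ a (ρ : Fin (RR n b G) → Bool),
      decide ((ins1 b G a).thr ≤ (ins1 b G a).src.countP (val x ρ)) = F1 a := by
    intro a ρ
    rw [hF1]
    apply decide_eq_decide.mpr
    unfold ins1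
    simp only
    rw [one_le_countP]
    apply exists_congr
    intro t
    by_cases h : a.2.1.1 * b + t.1 < n
    · rw [dif_pos h]
      by_cases hp : a.2.2 t = true
      · rw [if_pos hp]
        constructor
        · intro hx; exact ⟨h, hp, hx⟩
        · rintro ⟨_, _, hx⟩; exact hx
      · rw [if_neg hp]
        constructor
        · intro hx; exact absurd hx (by simp [val])
        · rintro ⟨_, hp', _⟩; exact absurd hp' hp
    · rw [dif_neg h]
      constructor
      · intro hx; exact absurd hx (by simp [val])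
      · rintro ⟨h', _⟩; exact absurd h' h
  have inj1 : Function.Injective (fun a => (ins1 b G a : Instr (Fin n × Fin n) (RR n b G)).dst) := by
    intro a a' h
    have := (nm n b G).injective h
    rwa [Sum.inl.injEq] at this
  have inj2 : Function.Injective (fun q => (ins2 b G M q).dst) := by
    intro a a' h
    have := (nm n b G).injective h
    rwa [Sum.inr.injEq] at this
  obtain ⟨_, s1⟩ := run_list x (ins1 b G) F1 (fun _ => False) (fun _ => false) (fun _ h => h)
    (fun a ρ _ => h1 a ρ) inj1 (univ : Finset (Fin n × Fin G × (Fin b → Bool))).toList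
    (fun _ => false) (fun _ h => absurd h (by simp))
  set ρ1 := run x (fun _ => false)
    ((univ : Finset (Fin n × Fin G × (Fin b → Bool))).toList.map (ins1 b G)) with hρ1
  have s1' : ∀ a, ρ1 (nm n b G (.inl a)) = F1 a := fun a =>
    s1 a (Or.inl (mem_toList.mpr (mem_univ a)))
  set F2 : Fin n × Fin n → Bool := fun q => decide (∃ g : Fin G, F1 (q.1, g, pat b G M q.2 g) = true)
    with hF2
  obtain ⟨_, s2⟩ := run_list x (ins2 b G M) F2 (fun r => ∃ a, r = nm n b G (.inl a)) ρ1
    (by
      rintro q ⟨a, ha⟩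
      have := (nm n b G).injective ha
      exact absurd this (by simp))
    (by
      intro q ρ hρ
      rw [hF2]
      apply decide_eq_decide.mpr
      unfold ins2
      simp only
      rw [one_le_countP]
      apply exists_congr
      intro g
      show ρ (nm n b G (.inl (q.1, g, pat b G M q.2 g))) = true ↔ _
      rw [hρ _ ⟨_, rfl⟩, s1'])
    inj2 (univ : Finset (Fin n × Fin n)).toList ρ1 (fun _ _ => rfl)
  have e1 : eval x (fun _ => false) (prog b G M) i j = F2 (i, j) := by
    unfold prog
    rw [(ofList_all _ x (code b G M) (fun _ => false)).2.2 i j]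
    show run x (fun _ => false) (code b G M) (nm n b G (.inr (i, j))) = F2 (i, j)
    have e2 : run x (fun _ => false) (code b G M) =
        run x ρ1 ((univ : Finset (Fin n × Fin n)).toList.map (ins2 b G M)) := by
      unfold code run
      rw [List.foldl_append]
      rfl
    rw [e2]
    exact s2 (i, j) (Or.inl (mem_toList.mpr (mem_univ _)))
  rw [e1, hF2]
  apply decide_eq_decide.mpr
  constructor
  · rintro ⟨g, hg⟩
    rw [hF1, decide_eq_true_eq] at hg
    obtain ⟨t, h, hp, hx⟩ := hg
    refine ⟨⟨g.1 * b + t.1, h⟩, ?_, hx⟩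
    simp only [pat] at hp
    rw [dif_pos h] at hp
    exact hp
  · rintro ⟨k, hM, hx⟩
    have hkb : k.1 / b < G := by
      rw [Nat.div_lt_iff_lt_mul hb]
      exact lt_of_lt_of_le k.2 hG
    have hke : k.1 / b * b + k.1 % b = k.1 := by
      rw [mul_comm]
      exact Nat.div_add_mod k.1 b
    refine ⟨⟨k.1 / b, hkb⟩, ?_⟩
    rw [hF1, decide_eq_true_eq]
    have hlt : k.1 / b * b + k.1 % b < n := by rw [hke]; exact k.2
    have hk' : (⟨k.1 / b * b + k.1 % b, hlt⟩ : Fin n) = k := Fin.ext hke
    refine ⟨⟨k.1 % b, Nat.mod_lt _ hb⟩, hlt, ?_, ?_⟩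
    · simp only [pat]
      rw [dif_pos hlt, hk']
      exact hM
    · show x (i, (⟨k.1 / b * b + k.1 % b, hlt⟩ : Fin n)) = true
      rw [hk']
      exact hx

theorem prog_cost (M : Matrix (Fin n) (Fin n) Bool) :
    cost (code b G M) = n * (G * 2 ^ b) * (b + 1) + n * n * (G + 1) := by
  show cost (_ ++ _) = _
  rw [cost_append, cost_map (ins1 b G) (b + 1) (fun a => by
    unfold ins1
    simp only [List.length_ofFn]), cost_map (ins2 b G M) (G + 1) (fun a => by
    unfold ins2
    simp only [List.length_ofFn]), length_toList, length_toList, card_univ, card_univ,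
    Fintype.card_prod, Fintype.card_prod, Fintype.card_prod, Fintype.card_fun, Fintype.card_bool,
    Fintype.card_fin, Fintype.card_fin, Fintype.card_fin]

theorem RR_eq : RR n b G = n * (G * 2 ^ b) + n * n := by
  unfold RR Reg
  rw [Fintype.card_sum, Fintype.card_prod, Fintype.card_prod, Fintype.card_prod, Fintype.card_fun,
    Fintype.card_bool, Fintype.card_fin, Fintype.card_fin, Fintype.card_fin]

end build

/-- The upper bound. -/
theorem upper (n : ℕ) (hn : 1 ≤ n) (M : Matrix (Fin n) (Fin n) Bool) :
    ∃ (R : ℕ) (A : Alg n R), n + R ≤ 2 ^ (4 * (Nat.log 2 n + 1)) ∧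
      ∀ x, weight x (fun _ => false) A = 1 ∧
        time x (fun _ => false) A * (Nat.log 2 n + 1) ≤ 22 * n ^ 3 ∧
        ∀ i j, eval x (fun _ => false) A i j = decide (∃ k, M j k = true ∧ x (i, k) = true) := by
  set m := Nat.log 2 n / 2 with hm
  set b := m + 1 with hb
  set G := n / b + 1 with hG
  set l := Nat.log 2 n + 1 with hl
  have hn2 : n < 2 ^ l := Nat.lt_pow_succ_log_self (by norm_num) n
  have hn1 : 2 ^ (Nat.log 2 n) ≤ n := Nat.pow_log_le_self 2 (by omega)
  have hln : l ≤ n := by
    have : Nat.log 2 n < n := by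
      calc Nat.log 2 n < 2 ^ Nat.log 2 n := Nat.lt_two_pow_self
        _ ≤ n := hn1
    omega
  have hbl : b ≤ l := by omega
  have hGb : G * b ≤ n + b := by
    rw [hG, add_mul, one_mul]
    have := Nat.div_mul_le_self n b
    omega
  have hGb2 : n ≤ G * b := by
    rw [hG, add_mul, one_mul]
    have h1 := Nat.div_add_mod n b
    have h2 := Nat.mod_lt n (show 0 < b by omega)
    rw [mul_comm] at h1
    omega
  have hGl : G ≤ 2 ^ l := by
    have : n / b ≤ n := Nat.div_le_self n b
    omega
  have hall := fun x => ofList_all (fun i j => .inr (.inr (nm n b G (.inr (i, j))))) x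
    (code b G M) (fun _ => false)
  refine ⟨RR n b G, prog b G M, ?_, fun x => ⟨(hall x).1, ?_, fun i j =>
    prog_eval b G (by omega) hGb2 M x i j⟩⟩
  · rw [RR_eq]
    have h2b : 2 ^ b ≤ 2 ^ l := Nat.pow_le_pow_right (by norm_num) hbl
    set X := 2 ^ l with hX
    have hX2 : 2 ≤ X := by
      rw [hX]
      calc 2 = 2 ^ 1 := by norm_num
        _ ≤ 2 ^ l := Nat.pow_le_pow_right (by norm_num) (by omega)
    have e : 2 ^ (4 * l) = X * X * X * X := by
      rw [hX, ← pow_add, ← pow_add, ← pow_add]
      congr 1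
      ring
    rw [e]
    have h1 : n * (G * 2 ^ b) ≤ X * (X * X) :=
      Nat.mul_le_mul hn2.le (Nat.mul_le_mul hGl h2b)
    have h2 : n * n ≤ X * X := Nat.mul_le_mul hn2.le hn2.le
    have h3 : X * X * X * X ≥ 2 * (X * X * X) := by nlinarith [Nat.zero_le (X * X * X)]
    have h4 : X * X * X ≥ 2 * (X * X) := by nlinarith [Nat.zero_le (X * X)]
    have h5 : X * X ≥ 2 * X := by nlinarith
    nlinarith
  · rw [show time x (fun _ => false) (prog b G M) = cost (code b G M) from (hall x).2.1, prog_cost]
    -- the numbers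
    have h2b : l ≤ 2 * b := by omega
    have hbn : b ≤ n := by omega
    have hy1 : 2 ^ m * 2 ^ m ≤ n := by
      refine le_trans ?_ hn1
      rw [← pow_add]
      exact Nat.pow_le_pow_right (by norm_num) (by omega)
    have hy2 : l ≤ 2 * 2 ^ m := by
      have : m + 1 ≤ 2 ^ m := Nat.lt_two_pow_self
      omega
    have hpow : 2 ^ b = 2 * 2 ^ m := by rw [hb, pow_succ]; ring
    set y := 2 ^ m with hy
    have t1 : 2 ^ b * l ≤ 4 * n := by
      rw [hpow]
      calc 2 * y * l ≤ 2 * y * (2 * y) := Nat.mul_le_mul_left _ hy2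
        _ = 4 * (y * y) := by ring
        _ ≤ 4 * n := Nat.mul_le_mul_left _ hy1
    have t2 : G * (b + 1) ≤ 4 * n := by
      have : G * (b + 1) ≤ 2 * (G * b) := by nlinarith
      omega
    have t3 : (G + 1) * l ≤ 6 * n := by
      have h1 : (G + 1) * l ≤ (G + 1) * (2 * b) := Nat.mul_le_mul_left _ h2b
      have h2 : (G + 1) * (2 * b) = 2 * (G * b) + 2 * b := by ring
      omega
    calc (n * (G * 2 ^ b) * (b + 1) + n * n * (G + 1)) * l =
        n * ((G * (b + 1)) * (2 ^ b * l)) + n * n * ((G + 1) * l) := by ring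
      _ ≤ n * ((4 * n) * (4 * n)) + n * n * (6 * n) := by
          apply Nat.add_le_add
          · exact Nat.mul_le_mul_left _ (Nat.mul_le_mul t2 t1)
          · exact Nat.mul_le_mul_left _ t3
      _ = 22 * n ^ 3 := by ring

end Pool.Agent.Helper54K9.GT
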